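import Pool.Agent.Helper35.HC.StA

set_option autoImplicit false

/-!
# HC module RCT: the reaction inequality
-/

namespace Pool.Agent.Helper33.HC

open Helper35.HC Helper35.HSF Helper35.MS Helper35.PI Helper35.PI2 Helper32.CL

private theorem mt_lc {n : ℕ} (a a' : ℝ) (K b : Fin n → Fin n → ℝ) :
    Helper35.HC.mt (lc a a' K b) = a * Helper35.HC.mt K + a' * Helper35.HC.mt b := by
  unfold Helper35.HC.mt lc
  rw [Finset.sum_add_distrib, ← Finset.mul_sum, ← Finset.mul_sum]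
  ring

private theorem tl_lc {n : ℕ} (a a' : ℝ) (K b : Fin n → Fin n → ℝ) (i j : Fin n) :
    tl (lc a a' K b) i j = a * tl K i j + a' * tl b i j := by
  unfold tl
  rw [mt_lc]
  unfold lc
  by_cases h : i = j
  · simp only [h, if_true]; ring
  · simp only [if_neg h]; ring

private theorem ip0_lc {n : ℕ} (a a' : ℝ) (K b : Fin n → Fin n → ℝ) :
    ip0 (lc a a' K b) (lc a a' K b)
      = a ^ 2 * ip0 K K + 2 * a * a' * ip0 K b + a' ^ 2 * ip0 b b := by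
  unfold ip0
  simp only [tl_lc, Finset.mul_sum, ← Finset.sum_add_distrib]
  refine Finset.sum_congr rfl fun i _ => Finset.sum_congr rfl fun j _ => ?_
  ring

private theorem core1 (hGRM : StGRM) (S T g0 w : ℝ) (hw : 0 < w) (hS : 0 < S)
    (hCS : g0 ^ 2 ≤ S * T)
    (hX : ∀ a a' : ℝ, a ^ 2 + a' ^ 2 = 1 → a ^ 2 * S + 2 * a * a' * g0 + a' ^ 2 * T ≤ w) :
    ∃ α β p q : ℝ, S = w * α ∧ 0 < α ∧ 0 ≤ q ∧ q ≤ α ∧ α ≤ p ∧ p ≤ 1 ∧ 0 ≤ β ∧ q ≤ β ∧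
      α * β = p * q ∧ S + T = w * (p + q) ∧ T - g0 ^ 2 / S = w * β ∧
      S ^ 2 + T ^ 2 + 2 * g0 ^ 2 = w ^ 2 * (p ^ 2 + q ^ 2) ∧
      (∀ m1 m2 : ℝ, m1 ^ 2 * S + 2 * m1 * m2 * g0 + m2 ^ 2 * T ≤ w * (p * (m1 ^ 2 + m2 ^ 2))) ∧
      ∃ a a' : ℝ, a ^ 2 + a' ^ 2 = 1 ∧
        (-a') ^ 2 * S + 2 * -a' * a * g0 + a ^ 2 * T = w * q := by
  obtain ⟨α, hα⟩ : ∃ α : ℝ, S = w * α := ⟨S / w, by field_simp⟩
  obtain ⟨g, hg⟩ : ∃ g : ℝ, g0 = w * g := ⟨g0 / w, by field_simp⟩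
  obtain ⟨β', hβ'⟩ : ∃ β' : ℝ, T = w * β' := ⟨T / w, by field_simp⟩
  subst hα hg hβ'
  have hα0 : 0 < α := pos_of_mul_pos_right hS hw.le
  have hgab : g ^ 2 ≤ α * β' := by
    have h1 : w ^ 2 * g ^ 2 ≤ w ^ 2 * (α * β') := by
      nlinarith [hCS]
    exact le_of_mul_le_mul_left h1 (by positivity)
  obtain ⟨p, q, hq0, hqα, hαp, hpq1, hpq2, hform, a, a', haa, hp⟩ := hGRM α g β' hα0 hgab
  have hp1 : p ≤ 1 := by
    have h1 := hX a a' haa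
    have h2 : w * p ≤ w * 1 := by
      rw [hp]
      calc w * (α * a ^ 2 + 2 * g * a * a' + β' * a' ^ 2)
          = a ^ 2 * (w * α) + 2 * a * a' * (w * g) + a' ^ 2 * (w * β') := by ring
        _ ≤ w := h1
        _ = w * 1 := by ring
    exact le_of_mul_le_mul_left h2 hw
  have hp0 : 0 < p := lt_of_lt_of_le hα0 hαp
  obtain ⟨β, hβ⟩ : ∃ β : ℝ, α * β = p * q := ⟨p * q / α, by field_simp⟩
  have hβ0 : 0 ≤ β := by
    have : 0 ≤ α * β := by rw [hβ]; positivity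
    exact nonneg_of_mul_nonneg_right this hα0
  have hqβ : q ≤ β := by
    have : α * q ≤ α * β := by
      rw [hβ]
      exact mul_le_mul_of_nonneg_right hαp hq0
    exact le_of_mul_le_mul_left this hα0
  have hβval : w * β' - (w * g) ^ 2 / (w * α) = w * β := by
    have h1 : β = β' - g ^ 2 / α := by
      have : α * β = α * (β' - g ^ 2 / α) := by
        rw [hβ, hpq2]
        field_simp
      exact mul_left_cancel₀ hα0.ne' this
    rw [h1]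
    field_simp
  refine ⟨α, β, p, q, rfl, hα0, hq0, hqα, hαp, hp1, hβ0, hqβ, hβ, ?_, hβval, ?_, ?_, a, a',
    haa, ?_⟩
  · rw [hpq1]; ring
  · have h2 : (p + q) ^ 2 = (α + β') ^ 2 := by rw [hpq1]
    have h3 : α ^ 2 + β' ^ 2 + 2 * g ^ 2 = p ^ 2 + q ^ 2 := by linear_combination 2 * hpq2 - h2
    rw [← h3]
    ring
  · intro m1 m2
    have h2 := mul_le_mul_of_nonneg_left (hform m1 m2) hw.le
    calc m1 ^ 2 * (w * α) + 2 * m1 * m2 * (w * g) + m2 ^ 2 * (w * β')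
        = w * (α * m1 ^ 2 + 2 * g * m1 * m2 + β' * m2 ^ 2) := by ring
      _ ≤ _ := h2
  · have h3 : q = α + β' - p := by linarith
    have h4 : α * a ^ 2 + α * a' ^ 2 = α := by rw [← mul_add, haa, mul_one]
    have h5 : β' * a ^ 2 + β' * a' ^ 2 = β' := by rw [← mul_add, haa, mul_one]
    rw [h3, hp]
    linear_combination w * h4 + w * h5

private theorem core2 (hGRM : StGRM) (n : ℕ) (hn : 3 ≤ n) (cK E D B c : ℝ) (hHK : HK n cK E D B c)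
    (S T g0 m1 m2 μ r l x RA SqA ZZA YYA thA cqv SKK : ℝ) (hμ : 0 < μ) (hr : 0 < r)
    (hl0 : 0 < l) (hl1 : l ≤ 1) (hS2 : 2 * μ ^ 2 ≤ S)
    (hRea : RA ≤ μ ^ 2 * SKK + 2 * μ ^ 2 * min (2 * μ ^ 2) (T - g0 ^ 2 / S))
    (hKK : SKK = S + n * m1 ^ 2) (hCS : g0 ^ 2 ≤ S * T)
    (hX : ∀ a a' : ℝ, a ^ 2 + a' ^ 2 = 1 →
      a ^ 2 * S + 2 * a * a' * g0 + a' ^ 2 * T ≤ n * μ ^ 2)
    (hC : ∀ a a' : ℝ, a ^ 2 + a' ^ 2 = 1 →
      cqv ≤ 4 * μ ^ 2 * ((-a') ^ 2 * S + 2 * -a' * a * g0 + a ^ 2 * T))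
    (hth : thA = S + T)
    (hSq : SqA - ZZA / n = S ^ 2 + T ^ 2 + 2 * g0 ^ 2 + 2 * cqv
      + n * (m1 ^ 2 * S + 2 * m1 * m2 * g0 + m2 ^ 2 * T))
    (hZZ : ZZA = n ^ 2 * ((m1 ^ 2 * S + 2 * m1 * m2 * g0 + m2 ^ 2 * T)
      + n * (m1 ^ 2 + m2 ^ 2 + r) ^ 2))
    (hYY : YYA = n ^ 2 * (m1 ^ 2 + m2 ^ 2 + r))
    (hx : x = (m1 ^ 2 + m2 ^ 2) / r)
    (hyp : (μ ^ 2 + E / n * thA) / r = l * Gx cK D B c x) :
    RA + E / n * (SqA - ZZA / n) - n * r * (μ ^ 2 + E / n * thA)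
        - l * Gd cK D B x * (ZZA / n ^ 2 - n * r * (YYA / n ^ 2))
      ≤ -(n / 100) * r ^ 2 * (l * Gx cK D B c x) := by
  obtain ⟨hcK, hE, hD, hB, hc, -⟩ := hHK.pos
  have hn0 : (0 : ℝ) < n := by
    have : 0 < n := by omega
    exact_mod_cast this
  have hw0 : (0 : ℝ) < n * μ ^ 2 := by positivity
  have hS0 : 0 < S := lt_of_lt_of_le (by positivity) hS2
  obtain ⟨α, β, p, q, hα, hα0, hq0, hqα, hαp, hp1, hβ0, hqβ, hβ, hpq1, hβval, hsq2, hform,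
    a, a', haa, hq⟩ := core1 hGRM S T g0 (n * μ ^ 2) hw0 hS0 hCS hX
  obtain ⟨y, hy⟩ : ∃ y : ℝ, μ ^ 2 = y * r := ⟨μ ^ 2 / r, by field_simp⟩
  have hy0 : 0 < y := by
    have h1 : 0 < μ ^ 2 := by positivity
    rw [hy] at h1
    exact pos_of_mul_pos_left h1 hr.le
  obtain ⟨M1, hM1⟩ : ∃ M1 : ℝ, m1 ^ 2 = M1 * r := ⟨m1 ^ 2 / r, by field_simp⟩
  have hxr : m1 ^ 2 + m2 ^ 2 = x * r := by rw [hx]; field_simp
  have hx0 : 0 ≤ x := by rw [hx]; positivity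
  have hM1x : M1 ≤ x := by
    have : M1 * r ≤ x * r := by
      rw [← hM1, ← hxr]
      nlinarith [sq_nonneg m2]
    exact le_of_mul_le_mul_right this hr
  obtain ⟨v, hv⟩ : ∃ v : ℝ, v = m1 ^ 2 * S + 2 * m1 * m2 * g0 + m2 ^ 2 * T := ⟨_, rfl⟩
  rw [← hv] at hSq hZZ
  have hvle : v ≤ n * μ ^ 2 * (p * (x * r)) := by
    rw [hv, ← hxr]
    exact hform m1 m2
  have hcq0 : cqv ≤ 4 * μ ^ 2 * (n * μ ^ 2 * q) := by
    rw [← hq]
    exact hC a a' haa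
  rw [hy] at hα hS2 hRea hβval hpq1 hsq2 hvle hcq0 hyp
  obtain ⟨Mg, hMg⟩ : ∃ Mg : ℝ, v = n * (y * r) * r * Mg :=
    ⟨v / (n * (y * r) * r), by field_simp⟩
  have hMgx : Mg ≤ p * x := by
    have h1 : (n * (y * r) * r) * Mg ≤ (n * (y * r) * r) * (p * x) := by
      rw [← hMg]
      calc v ≤ _ := hvle
        _ = _ := by ring
    exact le_of_mul_le_mul_left h1 (by positivity)
  have hα2 : 2 / (n : ℝ) ≤ α := by
    rw [div_le_iff₀ hn0]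
    have h1 : 2 * (y * r) ≤ (α * n) * (y * r) := by
      rw [hα] at hS2
      linarith
    exact le_of_mul_le_mul_right h1 (by positivity)
  have hyG : y * (1 + E * (p + q)) = l * Gx cK D B c x := by
    rw [← hyp, hth, hpq1]
    field_simp
  have hmain := rcS hn hHK l x y p q α β M1 Mg hl0 hl1 hx0 hy0 hq0 hqα hαp hp1 hα2 hβ0 hβ hM1x
    hMgx hyG
  obtain ⟨G, hG⟩ : ∃ G : ℝ, G = Gx cK D B c x := ⟨_, rfl⟩
  obtain ⟨G', hG'⟩ : ∃ G' : ℝ, G' = Gd cK D B x := ⟨_, rfl⟩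
  rw [← hG, ← hG'] at hmain
  rw [← hG] at hyp
  rw [← hG, ← hG']
  obtain ⟨u, hu⟩ : ∃ u : ℝ, u = min (2 / (n : ℝ)) β := ⟨_, rfl⟩
  obtain ⟨z, hz⟩ : ∃ z : ℝ, z = min α β := ⟨_, rfl⟩
  rw [← hu, ← hz] at hmain
  have hRea' : RA ≤ n * r ^ 2 * (y ^ 2 * α + y * M1 + 2 * y ^ 2 * u) := by
    have h1 : min (2 * (y * r)) (T - g0 ^ 2 / S) = n * (y * r) * u := by
      rw [hβval, hu, mul_min_of_nonneg _ _ (by positivity : (0 : ℝ) ≤ n * (y * r))]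
      congr 1
      field_simp
    rw [h1, hKK, hα, hM1] at hRea
    calc RA ≤ _ := hRea
      _ = _ := by ring
  have hcq' : cqv ≤ 4 * (y * r) * (n * (y * r) * z) := by
    refine hcq0.trans ?_
    have h1 : q ≤ z := hz ▸ le_min hqα hqβ
    have h2 : (0 : ℝ) ≤ 4 * (y * r) * (n * (y * r)) := by positivity
    calc 4 * (y * r) * (n * (y * r) * q) = 4 * (y * r) * (n * (y * r)) * q := by ring
      _ ≤ 4 * (y * r) * (n * (y * r)) * z := mul_le_mul_of_nonneg_left h1 h2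
      _ = _ := by ring
  have hSqq : E / n * (SqA - ZZA / n) ≤ n * r ^ 2 * (E * y ^ 2 * (p ^ 2 + q ^ 2)
      + 8 * E / n * y ^ 2 * z + E * (y * Mg)) := by
    rw [hSq, hsq2, hMg]
    have h4 : E / n * ((n * (y * r)) ^ 2 * (p ^ 2 + q ^ 2) + 2 * cqv
        + n * (n * (y * r) * r * Mg))
        ≤ E / n * ((n * (y * r)) ^ 2 * (p ^ 2 + q ^ 2)
          + 2 * (4 * (y * r) * (n * (y * r) * z)) + n * (n * (y * r) * r * Mg)) := by
      apply mul_le_mul_of_nonneg_left _ (by positivity)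
      linarith
    refine h4.trans (le_of_eq ?_)
    field_simp
    ring
  have hthird : y * r + E / n * thA = r * (l * G) := by
    rw [← hyp]
    field_simp
  have hfourth : ZZA / n ^ 2 - n * r * (YYA / n ^ 2)
      = n * r ^ 2 * (y * Mg + x * (1 + x)) := by
    rw [hZZ, hYY, hMg, hxr]
    field_simp
    ring
  rw [hy, hthird, hfourth]
  have hnr : (0 : ℝ) ≤ n * r ^ 2 := by positivity
  have hfin := mul_le_mul_of_nonneg_left hmain hnr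
  calc RA + E / n * (SqA - ZZA / n) - n * r * (r * (l * G))
        - l * G' * (n * r ^ 2 * (y * Mg + x * (1 + x)))
      ≤ n * r ^ 2 * (y ^ 2 * α + y * M1 + 2 * y ^ 2 * u)
        + n * r ^ 2 * (E * y ^ 2 * (p ^ 2 + q ^ 2) + 8 * E / n * y ^ 2 * z
          + E * (y * Mg)) - n * r * (r * (l * G))
        - l * G' * (n * r ^ 2 * (y * Mg + x * (1 + x))) := by
        linarith
    _ = n * r ^ 2 * (y ^ 2 * α + y * M1 + 2 * y ^ 2 * u + E * y ^ 2 * (p ^ 2 + q ^ 2)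
          + 8 * E / n * y ^ 2 * z + (E - l * G') * (y * Mg))
        - n * r ^ 2 * (l * G + l * G' * (x * (1 + x))) := by
        ring
    _ ≤ n * r ^ 2 * (l * G + l * G' * (x * (1 + x)) - 1 / 100 * (l * G))
        - n * r ^ 2 * (l * G + l * G' * (x * (1 + x))) := by
        linarith
    _ = -(n / 100) * r ^ 2 * (l * G) := by ring

theorem hRCT (hPXR : StPXR) (hPXE : StPXE) (hSPL : StSPL) (hSQB : StSQB) (hGRM : StGRM) :
    StRCT := by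
  intro n N hn cK E D B c hHK K b P Q μ hM A r ξ η x₀ hKB l x hl0 hl1 hx hyp
  have hn2 : 2 ≤ n := by omega
  obtain ⟨-, -, -, -, hS2⟩ := hPXE n hn2 K b P Q μ hM _ rfl
  obtain ⟨-, hRea⟩ := hPXR n N hn2 K b P Q μ hM A r ξ η x₀ hKB
  obtain ⟨-, hYY, hth, hZZ, hSq, hKK, hCS⟩ :=
    hSQB n N (by omega) A K b r ξ η x₀ hM.sK hM.sb hKB _ rfl
  refine core2 hGRM n hn cK E D B c hHK (ip0 K K) (ip0 b b) (ip0 K b) (Helper35.HC.mt K)
    (Helper35.HC.mt b) μ r l x (ReaP A P Q) (Sq A) (ZZ A) (YY A) (thA2 A) (cq K b)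
    (∑ i, ∑ j, K i j ^ 2) hM.mu0 hKB.r0 hl0 hl1 hS2 hRea hKK hCS ?_ ?_ hth ?_ ?_ hYY hx hyp
  · intro a a' haa
    have := (hSPL n hn2 K b μ hM.sK hM.sb hM.mu0.le hM.mx a a' haa).2.1
    rwa [ip0_lc] at this
  · intro a a' haa
    have := (hSPL n hn2 K b μ hM.sK hM.sb hM.mu0.le hM.mx a a' haa).2.2
    rwa [ip0_lc] at this
  · exact hSq
  · exact hZZ

end Pool.Agent.Helper33.HC
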